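import Pool.Agent.H6.FI.TargetsB

/-!
# EXM: numbers and degrees if `ν` extends
-/

open scoped Classical ComplexConjugate

namespace Pool.Agent.H37.FI

open _root_.FI AMc AMt

theorem pf_EXM (h1 : T_A5T) (h2 : T_IMN) : T_EXM := by
  obtain ⟨b4, b5, c3, c3', h⟩ := h1
  intro Γ _ _ Z M C δ hE ν hν μ hμ hμ1 ho
  obtain ⟨hA, hB, hI⟩ := h2 Γ Z M C δ hE ν hν μ hμ hμ1 ho
  have hset : Ab M ν = (fun β : Equiv.Perm (Fin 5) → ℂ => fun g => μ g * β (δ g)) '' IrrS A5 := by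
    ext χ
    constructor
    · intro hχ
      obtain ⟨β, hβ, he⟩ := hB χ hχ
      exact ⟨β, hβ, he.symm⟩
    · rintro ⟨β, hβ, rfl⟩
      exact hA β hβ
  have hinj : Set.InjOn (fun β : Equiv.Perm (Fin 5) → ℂ => fun g => μ g * β (δ g))
      (IrrS A5) := fun β hβ β' hβ' he => hI β hβ β' hβ' fun g => congrFun he g
  have o1 : (1 : Equiv.Perm (Fin 5)) ∈ A5 := A5.one_mem
  have v1 : rsf A5 (fun _ => 1) 1 = 1 := if_pos o1
  have v4 : rsf A5 b4 1 = 4 := (if_pos o1).trans h.d4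
  have v5 : rsf A5 b5 1 = 5 := (if_pos o1).trans h.d5
  have v3 := h.d3
  have v3' := h.d3'
  have hne : ∀ (a b : Equiv.Perm (Fin 5) → ℂ), a 1 ≠ b 1 → a ≠ b := fun a b hab e => hab (by rw [e])
  have n1 : rsf A5 (fun _ => 1) ∉ ({rsf A5 b4, rsf A5 b5, c3, c3'} :
      Finset (Equiv.Perm (Fin 5) → ℂ)) := by
    simp only [Finset.mem_insert, Finset.mem_singleton, not_or]
    refine ⟨hne _ _ ?_, hne _ _ ?_, hne _ _ ?_, hne _ _ ?_⟩
    · rw [v1, v4]; norm_num
    · rw [v1, v5]; norm_num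
    · rw [v1, v3]; norm_num
    · rw [v1, v3']; norm_num
  have n2 : rsf A5 b4 ∉ ({rsf A5 b5, c3, c3'} : Finset (Equiv.Perm (Fin 5) → ℂ)) := by
    simp only [Finset.mem_insert, Finset.mem_singleton, not_or]
    refine ⟨hne _ _ ?_, hne _ _ ?_, hne _ _ ?_⟩
    · rw [v4, v5]; norm_num
    · rw [v4, v3]; norm_num
    · rw [v4, v3']; norm_num
  have n3 : rsf A5 b5 ∉ ({c3, c3'} : Finset (Equiv.Perm (Fin 5) → ℂ)) := by
    simp only [Finset.mem_insert, Finset.mem_singleton, not_or]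
    refine ⟨hne _ _ ?_, hne _ _ ?_⟩
    · rw [v5, v3]; norm_num
    · rw [v5, v3']; norm_num
  have n4 : c3 ∉ ({c3'} : Finset (Equiv.Perm (Fin 5) → ℂ)) := by
    rw [Finset.mem_singleton]
    exact h.ne
  have hfin : IrrS A5 = (({rsf A5 (fun _ => 1), rsf A5 b4, rsf A5 b5, c3, c3'} :
      Finset (Equiv.Perm (Fin 5) → ℂ)) : Set (Equiv.Perm (Fin 5) → ℂ)) := by
    ext β
    rw [h.all β]
    simp
  constructor
  · show (Ab M ν).ncard = 5
    rw [hset, Set.ncard_image_of_injOn hinj, hfin, Set.ncard_coe_finset,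
      Finset.card_insert_of_notMem n1, Finset.card_insert_of_notMem n2,
      Finset.card_insert_of_notMem n3, Finset.card_insert_of_notMem n4, Finset.card_singleton]
  · show ∑ᶠ χ ∈ Ab M ν, (χ 1).re = 16
    rw [hset, finsum_mem_image hinj, hfin, finsum_mem_coe_finset, Finset.sum_insert n1,
      Finset.sum_insert n2, Finset.sum_insert n3, Finset.sum_insert n4, Finset.sum_singleton]
    simp only [map_one, hμ1, one_mul, v1, v4, v5, v3, v3']
    norm_num

end Pool.Agent.H37.FI
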