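import Pool.Agent.H6.FI.TargetsB
import Pool.Agent.H6.FI.Lib

/-!
# IMN: the characters of `M` over a linear character which extends
-/

open scoped Classical ComplexConjugate

namespace Pool.Agent.H37.FI

open _root_.FI AMc AMt

/-- a character of degree one is multiplicative -/
theorem lin_mul {G : Type} [Group G] {χ : G → ℂ} (h : IsChar G χ) (h1 : χ 1 = 1) (a b : G) :
    χ (a * b) = χ a * χ b := by
  obtain ⟨n, ρ, rfl⟩ := h
  have hn : n = 1 := by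
    have h2 : ρ.character 1 = (n : ℂ) := by
      rw [Representation.char_one, Module.finrank_fintype_fun_eq_card, Fintype.card_fin]
    rw [h2] at h1
    exact_mod_cast h1
  subst hn
  have key : ∀ f : (Fin 1 → ℂ) →ₗ[ℂ] (Fin 1 → ℂ),
      LinearMap.trace ℂ (Fin 1 → ℂ) f = LinearMap.toMatrix' f 0 0 := by
    intro f
    rw [LinearMap.trace_eq_matrix_trace ℂ (Pi.basisFun ℂ (Fin 1)) f]
    simp [Matrix.trace, LinearMap.toMatrix_eq_toMatrix']
  show LinearMap.trace ℂ _ (ρ (a * b)) = LinearMap.trace ℂ _ (ρ a) * LinearMap.trace ℂ _ (ρ b)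
  rw [key, key, key, map_mul, Module.End.mul_eq_comp, LinearMap.toMatrix'_comp, Matrix.mul_apply]
  simp

/-- fibres of a surjective homomorphism -/
theorem sum_hom {A B : Type} [Group A] [Fintype A] [Group B] [Fintype B] (d : A →* B)
    (hd : Function.Surjective d) (F : B → ℂ) :
    ∑ a, F (d a) = (Nat.card d.ker : ℂ) * ∑ b, F b := by
  rw [← Finset.sum_fiberwise (s := Finset.univ) (g := d) (f := fun a => F (d a)), Finset.mul_sum]
  refine Finset.sum_congr rfl fun b _ => ?_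
  have h1 : ∀ a ∈ Finset.univ.filter (fun a => d a = b), F (d a) = F b := by
    intro a ha
    rw [(Finset.mem_filter.1 ha).2]
  rw [Finset.sum_congr rfl h1, Finset.sum_const, nsmul_eq_mul]
  congr 1
  norm_cast
  obtain ⟨a0, ha0⟩ := hd b
  rw [Nat.card_eq_fintype_card, Fintype.card_subtype]
  refine Finset.card_bij (fun a _ => a0⁻¹ * a) ?_ ?_ ?_
  · intro a ha
    rw [Finset.mem_filter] at ha ⊢
    refine ⟨Finset.mem_univ _, ?_⟩
    show d (a0⁻¹ * a) = 1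
    rw [map_mul, ha.2, map_inv, ha0, inv_mul_cancel]
  · intro a _ b _ hab
    exact mul_left_cancel hab
  · intro k hk
    rw [Finset.mem_filter] at hk
    have h2 : d k = 1 := hk.2
    refine ⟨a0 * k, ?_, by group⟩
    rw [Finset.mem_filter]
    exact ⟨Finset.mem_univ _, by rw [map_mul, h2, ha0, mul_one]⟩

/-- a sum over a subgroup -/
theorem sum_sub {Γ : Type} [Group Γ] [Fintype Γ] (M : Subgroup Γ) [Fintype M] (F : Γ → ℂ)
    (h : ∀ g, g ∉ M → F g = 0) : ∑ g, F g = ∑ m : M, F m := by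
  rw [← Finset.sum_subtype (Finset.univ.filter (fun g => g ∈ M)) (by simp) F]
  symm
  refine Finset.sum_subset (Finset.filter_subset _ _) ?_
  intro g _ hg
  refine h g fun hm => hg ?_
  simp [hm]

section

variable {Γ : Type} [Group Γ] [Fintype Γ] {Z M C : Subgroup Γ} {δ : Γ →* Equiv.Perm (Fin 5)}

/-- the homomorphism of `M` onto `A5` -/
noncomputable def dM (h : AE Z M C δ) : M →* A5 where
  toFun m := ⟨δ m, by rw [← h.map]; exact ⟨m, m.2, rfl⟩⟩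
  map_one' := by
    apply Subtype.ext
    show δ ((1 : M) : Γ) = 1
    simp
  map_mul' := by
    intro a b
    apply Subtype.ext
    show δ ((a * b : M) : Γ) = δ a * δ b
    simp

theorem dM_coe (h : AE Z M C δ) (m : M) : ((dM h m : A5) : Equiv.Perm (Fin 5)) = δ m := rfl

theorem dM_surj (h : AE Z M C δ) : Function.Surjective (dM h) := by
  rintro ⟨σ, hσ⟩
  have h1 := hσ
  rw [← h.map] at h1
  obtain ⟨m, hm, hms⟩ := h1
  exact ⟨⟨m, hm⟩, Subtype.ext hms⟩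

theorem dM_ker (h : AE Z M C δ) : (dM h).ker = Z.subgroupOf M := by
  ext m
  rw [MonoidHom.mem_ker, Subgroup.mem_subgroupOf]
  have hZ : (m : Γ) ∈ Z ↔ (m : Γ) ∈ M ⊓ C := by rw [h.inf]
  rw [hZ]
  constructor
  · intro hm
    exact ⟨m.2, (h.ker m).2 (congrArg Subtype.val hm)⟩
  · intro hm
    exact Subtype.ext ((h.ker m).1 hm.2)

theorem ZleM (h : AE Z M C δ) : Z ≤ M := by
  rw [← h.inf]
  exact inf_le_left

theorem cardM (h : AE Z M C δ) (h60 : Z.relIndex M = 60) :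
    Nat.card (dM h).ker * 60 = Nat.card M := by
  rw [dM_ker h, ← h60]
  exact Subgroup.card_mul_index (Z.subgroupOf M)

theorem card_A5 : Nat.card A5 = 60 := by
  have h1 : Nat.card (alternatingGroup (Fin 5)) = 60 := by
    rw [nat_card_alternatingGroup]
    simp [Nat.factorial]
  exact h1

theorem mem_IrrS_of (h : AE Z M C δ) (h60 : Z.relIndex M = 60) {μ : Γ → ℂ} (hμ : μ ∈ IrrS M)
    (h1 : μ 1 = 1) (hn : ∀ m ∈ M, μ m * conj (μ m) = 1) {β : Equiv.Perm (Fin 5) → ℂ}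
    (hβ : β ∈ IrrS A5) : (fun g => μ g * β (δ g)) ∈ IrrS M := by
  obtain ⟨hμ0, -, -, -, hμc, -⟩ := FI.Lib.lS1 Γ M μ hμ
  obtain ⟨hβ0, -, -, -, hβc, -⟩ := FI.Lib.lS1 _ A5 β hβ
  refine FI.Lib.lS10 Γ M _ ?_ ?_ ?_
  · intro g hg
    show μ g * β (δ g) = 0
    rw [hμ0 g hg, zero_mul]
  · have h2 := FI.Lib.lA4.2.1 M A5 (dM h) _ hβc
    exact FI.Lib.lA4.1 M _ _ hμc h2
  · have e1 : ∀ g : Γ, g ∉ M → (μ g * β (δ g)) * conj (μ g * β (δ g)) = 0 := by
      intro g hg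
      rw [hμ0 g hg, zero_mul, zero_mul]
    rw [sum_sub M _ e1]
    have e2 : ∀ m : M, (μ m * β (δ m)) * conj (μ m * β (δ m)) =
        (fun s : A5 => β s * conj (β s)) (dM h m) := by
      intro m
      show _ = β (δ m) * conj (β (δ m))
      rw [map_mul, mul_mul_mul_comm, hn m m.2, one_mul]
    rw [Finset.sum_congr rfl fun m _ => e2 m, sum_hom (dM h) (dM_surj h)
      (fun s : A5 => β s * conj (β s))]
    have e3 : ∑ s : A5, β s * conj (β s) = 60 := by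
      rw [← sum_sub A5 (fun s => β s * conj (β s)) (fun s hs => by rw [hβ0 s hs, zero_mul]),
        FI.Lib.lS2 _ A5 β β hβ hβ, if_pos rfl, card_A5]
      norm_num
    rw [e3]
    have := cardM h h60
    exact_mod_cast this

theorem over_of (h : AE Z M C δ) {μ ν : Γ → ℂ} (hν : ν ∈ IrrS Z)
    (ho : Over μ ν) {β : Equiv.Perm (Fin 5) → ℂ}
    (hβ : β ∈ IrrS A5) : Over (fun g => μ g * β (δ g)) ν := by
  obtain ⟨hν0, -, -, -, -, -⟩ := FI.Lib.lS1 Γ Z ν hν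
  obtain ⟨-, -, ⟨k, hk, hk1⟩, -, -, -⟩ := FI.Lib.lS1 _ A5 β hβ
  have e : ∀ g : Γ, (μ g * β (δ g)) * conj (ν g) = β 1 * (μ g * conj (ν g)) := by
    intro g
    by_cases hg : g ∈ Z
    · have hg' := hg
      rw [← h.inf] at hg'
      rw [(h.ker g).1 hg'.2]
      ring
    · rw [hν0 g hg, map_zero]
      ring
  show ∑ g : Γ, (μ g * β (δ g)) * conj (ν g) ≠ 0
  rw [Finset.sum_congr rfl fun g _ => e g, ← Finset.mul_sum]
  refine mul_ne_zero ?_ ho
  rw [hk1]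
  exact_mod_cast hk.ne'

theorem norm_one {μ : Γ → ℂ} (hμ : μ ∈ IrrS M) (h1 : μ 1 = 1) :
    ∀ m ∈ M, μ m * conj (μ m) = 1 := by
  obtain ⟨-, -, -, hμi, hμc, -⟩ := FI.Lib.lS1 Γ M μ hμ
  intro m hm
  rw [hμi m]
  have h2 := lin_mul hμc (by exact h1) ⟨m, hm⟩ ⟨m, hm⟩⁻¹
  have h3 : μ ((⟨m, hm⟩ * ⟨m, hm⟩⁻¹ : M) : Γ) = μ m * μ m⁻¹ := h2
  rw [← h3]
  simp [h1]

theorem inj_of (h : AE Z M C δ) {μ : Γ → ℂ}
    (hn : ∀ m ∈ M, μ m * conj (μ m) = 1) {β β' : Equiv.Perm (Fin 5) → ℂ}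
    (hβ : β ∈ IrrS A5) (hβ' : β' ∈ IrrS A5)
    (he : ∀ g, μ g * β (δ g) = μ g * β' (δ g)) : β = β' := by
  obtain ⟨hβ0, -, -, -, -, -⟩ := FI.Lib.lS1 _ A5 β hβ
  obtain ⟨hβ0', -, -, -, -, -⟩ := FI.Lib.lS1 _ A5 β' hβ'
  funext σ
  by_cases hσ : σ ∈ A5
  · have h2 := hσ
    rw [← h.map] at h2
    obtain ⟨m, hm, hms⟩ := h2
    have hms' : δ m = σ := hms
    have h3 := he m
    rw [hms'] at h3
    refine mul_left_cancel₀ ?_ h3
    intro h0
    have h4 := hn m hm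
    rw [h0, zero_mul] at h4
    exact zero_ne_one h4
  · rw [hβ0 σ hσ, hβ0' σ hσ]

end

theorem pf_IMN (h1 : T_AEC) (h2 : T_SSQ) (h3 : T_A5T) (h4 : T_ABL) : T_IMN := by
  intro Γ _ _ Z M C δ h ν hν μ hμ hμ1 ho
  have h60 : Z.relIndex M = 60 := (h1 Γ Z M C δ h).2.1
  have hn := norm_one hμ hμ1
  have hA : ∀ β ∈ IrrS A5, (fun g => μ g * β (δ g)) ∈ Ab M ν := fun β hβ =>
    ⟨mem_IrrS_of h h60 hμ hμ1 hn hβ, over_of h hν ho hβ⟩
  have hI : ∀ β ∈ IrrS A5, ∀ β' ∈ IrrS A5, (∀ g, μ g * β (δ g) = μ g * β' (δ g)) → β = β' :=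
    fun β hβ β' hβ' he => inj_of h hn hβ hβ' he
  refine ⟨hA, ?_, hI⟩
  intro φ hφ
  by_contra hcon
  obtain ⟨fs, hfs, hsum⟩ := FI.Lib.lS9 _ A5
  obtain ⟨gs, hgs, -⟩ := FI.Lib.lS9 Γ M
  have hfin : (Ab M ν).Finite := (gs.finite_toSet).subset fun χ hχ => (hgs χ).2 hχ.1
  have hssq := h2 Γ Z M (ZleM h) (fun z hz g _ => h.cen z hz g) ν hν
  rw [finsum_mem_eq_finite_toFinset_sum _ hfin, h60] at hssq
  have hsum' : ∑ β ∈ fs, β 1 * β 1 = (60 : ℂ) := by
    rw [hsum, card_A5]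
    norm_num
  let J : Finset (Γ → ℂ) := fs.image (fun β => fun g => μ g * β (δ g))
  have hJ : ∑ χ ∈ J, χ 1 * χ 1 = 60 := by
    rw [Finset.sum_image, ← hsum']
    · refine Finset.sum_congr rfl fun β _ => ?_
      show (μ 1 * β (δ 1)) * (μ 1 * β (δ 1)) = β 1 * β 1
      rw [hμ1, map_one, one_mul]
    · intro β hβ β' hβ' he
      exact hI β ((hfs β).1 hβ) β' ((hfs β').1 hβ') fun g => congrFun he g
  have hJs : J ⊆ hfin.toFinset := by
    intro χ hχ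
    obtain ⟨β, hβ, rfl⟩ := Finset.mem_image.1 hχ
    rw [Set.Finite.mem_toFinset]
    exact hA β ((hfs β).1 hβ)
  have hφJ : φ ∉ J := by
    intro hm
    obtain ⟨β, hβ, he⟩ := Finset.mem_image.1 hm
    exact hcon ⟨β, (hfs β).1 hβ, he.symm⟩
  -- every term is the square of a positive integer
  have hdeg : ∀ χ ∈ hfin.toFinset, ∃ k : ℕ, 0 < k ∧ χ 1 = k := by
    intro χ hχ
    rw [Set.Finite.mem_toFinset] at hχ
    exact (FI.Lib.lS1 Γ M χ hχ.1).2.2.1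
  have hre : ∀ χ ∈ hfin.toFinset, 0 < (χ 1 * χ 1).re := by
    intro χ hχ
    obtain ⟨k, hk, hk1⟩ := hdeg χ hχ
    rw [hk1]
    have h5 : ((k : ℂ) * (k : ℂ)).re = (k : ℝ) * k := by simp
    rw [h5]
    positivity
  have hlt : (∑ χ ∈ J, χ 1 * χ 1).re < (∑ χ ∈ hfin.toFinset, χ 1 * χ 1).re := by
    rw [Complex.re_sum, Complex.re_sum]
    refine Finset.sum_lt_sum_of_subset hJs (i := φ) ?_ hφJ ?_ ?_
    · rw [Set.Finite.mem_toFinset]
      exact hφ
    · refine hre φ ?_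
      rw [Set.Finite.mem_toFinset]
      exact hφ
    · intro χ hχ _
      exact (hre χ hχ).le
  rw [hJ, hssq] at hlt
  norm_num at hlt

end Pool.Agent.H37.FI
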