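import Pool.Agent.H37.FI.TRP

/-!
# TRL: transfer to a subgroup acting on an invariant subgroup, large orbits
-/

open scoped Classical

namespace Pool.Agent.H37.FI

open _root_.FI

theorem pf_TRL : T_TRL := by
  intro n hn R V _ _ _ _ ρ B W hS hc hI hC hne
  haveI : Group.IsSolvable B := inferInstance
  obtain ⟨r, hr, v, hv, hrv⟩ := hne
  obtain ⟨x, hx⟩ := hn B W (rs ρ B W hI) inferInstance hc (CR_rs ρ B W hI hC)
    ⟨⟨r, hr⟩, ⟨v, hv⟩, fun e => hrv (congrArg Subtype.val e)⟩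
  rw [Ck_rs, St_rs] at hx
  exact ⟨x, x.2, hx⟩

end Pool.Agent.H37.FI
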