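import Pool.Agent.H6.FI.TargetsA

/-!
# TRP and TRL: transfer to a subgroup acting on an invariant subgroup
-/

open scoped Classical

namespace Pool.Agent.H37.FI

open _root_.FI

section

variable {R V : Type} [Group R] [AddCommGroup V]

/-- the restricted action -/
noncomputable def rs (ρ : R →* AddMonoid.End V) (B : Subgroup R) (W : AddSubgroup V)
    (h : Inv ρ B W) : B →* AddMonoid.End W where
  toFun b :=
    { toFun := fun w => ⟨ρ b w, h b b.2 w w.2⟩
      map_zero' := by
        apply Subtype.ext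
        show ρ b ((0 : W) : V) = 0
        simp
      map_add' := by
        intro x y
        apply Subtype.ext
        show ρ b ((x + y : W) : V) = ρ b x + ρ b y
        simp }
  map_one' := by
    apply AddMonoidHom.ext
    intro w
    apply Subtype.ext
    show ρ ((1 : B) : R) (w : V) = w
    simp
  map_mul' := by
    intro a b
    apply AddMonoidHom.ext
    intro w
    apply Subtype.ext
    show ρ ((a * b : B) : R) (w : V) = ρ a (ρ b w)
    simp

theorem rs_apply (ρ : R →* AddMonoid.End V) (B : Subgroup R) (W : AddSubgroup V)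
    (h : Inv ρ B W) (b : B) (w : W) : ((rs ρ B W h b w : W) : V) = ρ b w := rfl

theorem Ck_rs (ρ : R →* AddMonoid.End V) (B : Subgroup R) (W : AddSubgroup V)
    (h : Inv ρ B W) : Ck (rs ρ B W h) ⊤ = (Ck ρ W).subgroupOf B := by
  ext b
  rw [Subgroup.mem_subgroupOf, mem_Ck, mem_Ck]
  constructor
  · intro H w hw
    have := H ⟨w, hw⟩ trivial
    exact congrArg Subtype.val this
  · intro H w _
    apply Subtype.ext
    exact H w w.2

theorem St_rs (ρ : R →* AddMonoid.End V) (B : Subgroup R) (W : AddSubgroup V)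
    (h : Inv ρ B W) (x : W) : St (rs ρ B W h) x = (St ρ (x : V)).subgroupOf B := by
  ext b
  rw [Subgroup.mem_subgroupOf, mem_St, mem_St]
  constructor
  · intro H
    exact congrArg Subtype.val H
  · intro H
    exact Subtype.ext H

theorem CR_rs (ρ : R →* AddMonoid.End V) (B : Subgroup R) (W : AddSubgroup V)
    (h : Inv ρ B W) (hc : CR ρ B W) : CR (rs ρ B W h) ⊤ ⊤ := by
  intro X _ hX
  obtain ⟨Y, hYW, hYi, hi, hs⟩ := hc (X.map W.subtype) (by
    rintro _ ⟨x, _, rfl⟩
    exact x.2) (by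
    rintro r hr _ ⟨x, hx, rfl⟩
    exact ⟨rs ρ B W h ⟨r, hr⟩ x, hX ⟨r, hr⟩ trivial x hx, rfl⟩)
  refine ⟨Y.comap W.subtype, le_top, ?_, ?_, ?_⟩
  · intro r _ w hw
    exact hYi r r.2 w hw
  · rw [eq_bot_iff]
    intro x hx
    have h1 : (x : V) ∈ X.map W.subtype ⊓ Y := ⟨⟨x, hx.1, rfl⟩, hx.2⟩
    rw [hi] at h1
    rw [AddSubgroup.mem_bot] at h1 ⊢
    exact Subtype.ext h1
  · rw [eq_top_iff]
    intro x _
    have h1 : (x : V) ∈ X.map W.subtype ⊔ Y := by rw [hs]; exact x.2
    obtain ⟨_, ⟨a, ha, rfl⟩, b, hb, hab⟩ := AddSubgroup.mem_sup.1 h1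
    refine AddSubgroup.mem_sup.2 ⟨a, ha, ⟨b, hYW hb⟩, hb, ?_⟩
    exact Subtype.ext hab

end

theorem pf_TRP : T_TRP := by
  intro n hn R V _ _ _ _ ρ B W hS hc hW hI hC
  haveI : Group.IsSolvable B := inferInstance
  haveI : Nontrivial W := (AddSubgroup.nontrivial_iff_ne_bot W).2 hW
  have h := hn B W (rs ρ B W hI) inferInstance hc inferInstance (CR_rs ρ B W hI hC)
  rw [Ck_rs] at h
  exact h

end Pool.Agent.H37.FI
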